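import Pool.Agent.H71.AAE.Defs

/-!
# AAE, module S3: the conductor in suitable coordinates
-/

set_option autoImplicit false

open Polynomial

namespace Pool.Agent.H71.AAE

universe u

namespace S3

variable {k : Type u} [Field k]

/-- the coordinate change `Y_0 ↦ Y_0 - ∑ a_j (Y_j + Q_j(Y_0))`, `Y_j ↦ Y_j + Q_j(Y_0)` -/
noncomputable def fwd {m : ℕ} (a : Fin (m + 1) → k) (Q : Fin (m + 1) → k[X]) :
    MvPolynomial (Fin (m + 1)) k →ₐ[k] MvPolynomial (Fin (m + 1)) k :=
  MvPolynomial.aeval (Fin.cases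
    (MvPolynomial.X 0 - ∑ j : Fin m, MvPolynomial.C (a j.succ) *
      (MvPolynomial.X j.succ + aeval (MvPolynomial.X 0) (Q j.succ)))
    (fun j => MvPolynomial.X j.succ + aeval (MvPolynomial.X 0) (Q j.succ)))

/-- its inverse `Y_0 ↦ lin a`, `Y_j ↦ Y_j - Q_j(lin a)` -/
noncomputable def bwd {m : ℕ} (a : Fin (m + 1) → k) (Q : Fin (m + 1) → k[X]) :
    MvPolynomial (Fin (m + 1)) k →ₐ[k] MvPolynomial (Fin (m + 1)) k :=
  MvPolynomial.aeval (Fin.cases (lin a) (fun j => MvPolynomial.X j.succ - aeval (lin a) (Q j.succ)))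

theorem fwd_zero {m : ℕ} (a : Fin (m + 1) → k) (Q : Fin (m + 1) → k[X]) :
    fwd a Q (MvPolynomial.X 0) = MvPolynomial.X 0 - ∑ j : Fin m, MvPolynomial.C (a j.succ) *
      (MvPolynomial.X j.succ + aeval (MvPolynomial.X 0) (Q j.succ)) := by
  rw [fwd, MvPolynomial.aeval_X]
  rfl

theorem fwd_succ {m : ℕ} (a : Fin (m + 1) → k) (Q : Fin (m + 1) → k[X]) (j : Fin m) :
    fwd a Q (MvPolynomial.X j.succ) =
      MvPolynomial.X j.succ + aeval (MvPolynomial.X 0) (Q j.succ) := by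
  rw [fwd, MvPolynomial.aeval_X]
  rfl

theorem bwd_zero {m : ℕ} (a : Fin (m + 1) → k) (Q : Fin (m + 1) → k[X]) :
    bwd a Q (MvPolynomial.X 0) = lin a := by
  rw [bwd, MvPolynomial.aeval_X]
  rfl

theorem bwd_succ {m : ℕ} (a : Fin (m + 1) → k) (Q : Fin (m + 1) → k[X]) (j : Fin m) :
    bwd a Q (MvPolynomial.X j.succ) = MvPolynomial.X j.succ - aeval (lin a) (Q j.succ) := by
  rw [bwd, MvPolynomial.aeval_X]
  rfl

theorem algHom_C {m : ℕ} (f : MvPolynomial (Fin (m + 1)) k →ₐ[k] MvPolynomial (Fin (m + 1)) k)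
    (c : k) : f (MvPolynomial.C c) = MvPolynomial.C c := by
  rw [← MvPolynomial.algebraMap_eq, AlgHom.commutes]

theorem lin_eq {m : ℕ} (a : Fin (m + 1) → k) (ha : a 0 = 1) :
    lin a = MvPolynomial.X 0 + ∑ j : Fin m, MvPolynomial.C (a j.succ) * MvPolynomial.X j.succ := by
  rw [lin, Fin.sum_univ_succ, ha, map_one, one_mul]

theorem fwd_lin {m : ℕ} (a : Fin (m + 1) → k) (ha : a 0 = 1) (Q : Fin (m + 1) → k[X]) :
    fwd a Q (lin a) = MvPolynomial.X 0 := by
  rw [lin_eq a ha, map_add, fwd_zero, map_sum]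
  have : ∀ j : Fin m, fwd a Q (MvPolynomial.C (a j.succ) * MvPolynomial.X j.succ) =
      MvPolynomial.C (a j.succ) *
      (MvPolynomial.X j.succ + aeval (MvPolynomial.X 0) (Q j.succ)) := by
    intro j
    rw [map_mul, algHom_C, fwd_succ]
  simp only [this]
  ring

theorem aeval_hom {m : ℕ} (f : MvPolynomial (Fin (m + 1)) k →ₐ[k] MvPolynomial (Fin (m + 1)) k)
    (y : MvPolynomial (Fin (m + 1)) k) (q : k[X]) : f (aeval y q) = aeval (f y) q := by
  rw [← Polynomial.aeval_algHom_apply]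

theorem fwd_bwd {m : ℕ} (a : Fin (m + 1) → k) (ha : a 0 = 1) (Q : Fin (m + 1) → k[X]) :
    (fwd a Q).comp (bwd a Q) = AlgHom.id k _ := by
  apply MvPolynomial.algHom_ext
  intro i
  refine Fin.cases ?_ (fun j => ?_) i
  · rw [AlgHom.comp_apply, bwd_zero, fwd_lin a ha, AlgHom.id_apply]
  · rw [AlgHom.comp_apply, bwd_succ, map_sub, aeval_hom, fwd_lin a ha, fwd_succ, AlgHom.id_apply]
    ring

theorem bwd_fwd {m : ℕ} (a : Fin (m + 1) → k) (ha : a 0 = 1) (Q : Fin (m + 1) → k[X]) :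
    (bwd a Q).comp (fwd a Q) = AlgHom.id k _ := by
  have h1 : ∀ j : Fin m, bwd a Q (MvPolynomial.X j.succ + aeval (MvPolynomial.X 0) (Q j.succ)) =
      MvPolynomial.X j.succ := by
    intro j
    rw [map_add, bwd_succ, aeval_hom, bwd_zero]
    ring
  apply MvPolynomial.algHom_ext
  intro i
  refine Fin.cases ?_ (fun j => ?_) i
  · rw [AlgHom.comp_apply, fwd_zero, map_sub, bwd_zero, map_sum, AlgHom.id_apply]
    simp only [map_mul, h1, algHom_C]
    rw [lin_eq a ha]
    ring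
  · rw [AlgHom.comp_apply, fwd_succ, h1, AlgHom.id_apply]

/-- the coordinate change as an equivalence -/
noncomputable def chg {m : ℕ} (a : Fin (m + 1) → k) (ha : a 0 = 1) (Q : Fin (m + 1) → k[X]) :
    MvPolynomial (Fin (m + 1)) k ≃ₐ[k] MvPolynomial (Fin (m + 1)) k :=
  AlgEquiv.ofAlgHom (fwd a Q) (bwd a Q) (fwd_bwd a ha Q) (bwd_fwd a ha Q)

theorem mem_cond {N m : ℕ} (φ : (MvPolynomial (Fin N) k)[X] →ₐ[k] MvPolynomial (Fin m) k)
    (b : MvPolynomial (Fin m) k) : b ∈ cond φ ↔ ∀ b', ∃ ρ, φ (C ρ) = b * b' := Iff.rfl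

theorem mem_cond_comp {N m : ℕ} (φ : (MvPolynomial (Fin N) k)[X] →ₐ[k] MvPolynomial (Fin m) k)
    (α : MvPolynomial (Fin m) k ≃ₐ[k] MvPolynomial (Fin m) k) (b : MvPolynomial (Fin m) k) :
    b ∈ cond ((α : _ →ₐ[k] MvPolynomial (Fin m) k).comp φ) ↔ α.symm b ∈ cond φ := by
  rw [mem_cond, mem_cond]
  constructor
  · intro h b'
    obtain ⟨ρ, hρ⟩ := h (α b')
    refine ⟨ρ, ?_⟩
    have := congrArg α.symm hρ
    simpa using this
  · intro h b'
    obtain ⟨ρ, hρ⟩ := h (α.symm b')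
    refine ⟨ρ, ?_⟩
    have := congrArg α hρ
    simpa using this

/-- factorisation through a surjection -/
theorem exists_factor {A B D : Type u} [CommRing A] [CommRing B] [CommRing D] (f : A →+* B)
    (hf : Function.Surjective f) (ψ : A →+* D) (h : ∀ x, f x = 0 → ψ x = 0) :
    ∃ q : B →+* D, ∀ x, q (f x) = ψ x := by
  refine ⟨(RingHom.liftOfRightInverse f (Function.surjInv hf)
    (Function.rightInverse_surjInv hf)) ⟨ψ, fun x hx => h x hx⟩, fun x => ?_⟩
  exact RingHom.liftOfRightInverse_comp_apply f (Function.surjInv hf)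
    (Function.rightInverse_surjInv hf) ⟨ψ, fun x hx => h x hx⟩ x

/-- remainders -/
theorem exists_rem {R : Type u} [CommRing R] [Nontrivial R] (s p : R) (h : R[X]) :
    ∃ (g : R[X]) (β α : R), h = (X ^ 2 - C s * X + C p) * g + (C β * X + C α) := by
  set a : R[X] := X ^ 2 - C s * X + C p with ha
  have ham : a.Monic := by
    rw [ha]
    monicity!
  have had : a.natDegree = 2 := by
    rw [ha]
    compute_degree!
  have hdeg : (h %ₘ a).natDegree ≤ 1 := by
    have := Polynomial.natDegree_modByMonic_lt h ham (by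
      intro h0
      rw [h0] at had
      simp at had)
    omega
  refine ⟨h /ₘ a, (h %ₘ a).coeff 1, (h %ₘ a).coeff 0, ?_⟩
  rw [← Polynomial.eq_X_add_C_of_natDegree_le_one hdeg, add_comm]
  exact (Polynomial.modByMonic_add_div h a).symm

/-- the kernel computation -/
theorem ker_comp {R B D : Type u} [CommRing R] [Nontrivial R] [CommRing B] [CommRing D]
    (φ : R[X] →+* B) (M : B →+* D) (ψ : R[X] →+* D) (s p : R)
    (hg : φ X ^ 2 = φ (C s) * φ X - φ (C p))
    (hψC : ∀ ρ, ψ (C ρ) = M (φ (C ρ))) (hψX : ψ X = M (φ (C s) - φ X))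
    (hc : ∀ β α : R, φ (C β) * φ X + φ (C α) = 0 → M (φ (C β)) = 0) (h : R[X]) (hh : φ h = 0) :
    ψ h = 0 := by
  obtain ⟨g, β, α, rfl⟩ := exists_rem s p h
  have hφa : φ (X ^ 2 - C s * X + C p) = 0 := by
    rw [map_add, map_sub, map_pow, map_mul, hg]
    ring
  have hψa : ψ (X ^ 2 - C s * X + C p) = 0 := by
    rw [map_add, map_sub, map_pow, map_mul, hψC, hψC, hψX, ← map_pow, ← map_mul, ← map_sub,
      ← map_add]
    have : (φ (C s) - φ X) ^ 2 - φ (C s) * (φ (C s) - φ X) + φ (C p) = 0 := by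
      linear_combination hg
    rw [this, map_zero]
  have h1 : φ (C β) * φ X + φ (C α) = 0 := by
    rw [map_add, map_mul, hφa, zero_mul, zero_add, map_add, map_mul] at hh
    exact hh
  have hβ := hc β α h1
  rw [map_add, map_mul, hψa, zero_mul, zero_add, map_add, map_mul, hψC, hψC, hψX, hβ, zero_mul,
    zero_add]
  have e : φ (C α) = -(φ (C β) * φ X) := by linear_combination h1
  rw [e, map_neg, map_mul, hβ, zero_mul, neg_zero]

/-- the second point of the double point scheme -/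
theorem exists_iota {N m : ℕ}
    (φ : (MvPolynomial (Fin N) k)[X] →ₐ[k] MvPolynomial (Fin (m + 1)) k)
    (hφ : Function.Surjective φ)
    (hS : ∀ b, ∃ α β : MvPolynomial (Fin N) k, b = φ (C α) + φ (C β) * φ X)
    (s p : MvPolynomial (Fin N) k) (hg : φ X ^ 2 = φ (C s) * φ X - φ (C p)) :
    ∃ q : MvPolynomial (Fin (m + 1)) k →ₐ[k] (MvPolynomial (Fin (m + 1)) k ⧸ cond φ),
      (∀ ρ, q (φ (C ρ)) = Ideal.Quotient.mk (cond φ) (φ (C ρ))) ∧
      q (φ X) = Ideal.Quotient.mk (cond φ) (φ (C s) - φ X) := by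
  obtain ⟨ψ, hψC, hψX⟩ : ∃ ψ : (MvPolynomial (Fin N) k)[X] →+*
      (MvPolynomial (Fin (m + 1)) k ⧸ cond φ),
      (∀ ρ, ψ (C ρ) = Ideal.Quotient.mk (cond φ) (φ (C ρ))) ∧
      ψ X = Ideal.Quotient.mk (cond φ) (φ (C s) - φ X) := by
    refine ⟨Polynomial.eval₂RingHom ((Ideal.Quotient.mk (cond φ)).comp
      ((φ : (MvPolynomial (Fin N) k)[X] →+* _).comp C))
      (Ideal.Quotient.mk (cond φ) (φ (C s) - φ X)), fun ρ => ?_, ?_⟩
    · rw [Polynomial.coe_eval₂RingHom, Polynomial.eval₂_C]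
      rfl
    · rw [Polynomial.coe_eval₂RingHom, Polynomial.eval₂_X]
  have hker := ker_comp (φ : (MvPolynomial (Fin N) k)[X] →+* MvPolynomial (Fin (m + 1)) k)
    (Ideal.Quotient.mk (cond φ)) ψ s p hg hψC hψX (by
      intro β α h1
      have h1' : φ (C β) * φ X + φ (C α) = 0 := h1
      rw [Ideal.Quotient.eq_zero_iff_mem]
      show φ (C β) ∈ cond φ
      intro b'
      obtain ⟨x, y, hxy⟩ := hS b'
      refine ⟨β * x - α * y, ?_⟩
      rw [hxy, C_sub, C_mul, C_mul, map_sub, map_mul, map_mul]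
      linear_combination (-φ (C y)) * h1')
  obtain ⟨q₀, hq⟩ := exists_factor
    (φ : (MvPolynomial (Fin N) k)[X] →+* MvPolynomial (Fin (m + 1)) k) hφ ψ hker
  have hq' : ∀ h, q₀ (φ h) = ψ h := hq
  have hcomm : ∀ c : k, q₀ (algebraMap k _ c) = algebraMap k _ c := by
    intro c
    have e1 : algebraMap k (MvPolynomial (Fin (m + 1)) k) c = φ (C (MvPolynomial.C c)) := by
      have : (C (MvPolynomial.C c) : (MvPolynomial (Fin N) k)[X]) = algebraMap k _ c := rfl
      rw [this, AlgHom.commutes]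
    rw [e1, hq', hψC, ← e1]
    rfl
  refine ⟨{ q₀ with commutes' := hcomm }, ?_, ?_⟩
  · intro ρ
    show q₀ (φ (C ρ)) = _
    rw [hq', hψC]
  · show q₀ (φ X) = _
    rw [hq', hψX]

/-- reduction modulo `Y_1, ..., Y_m` -/
theorem sub_mem_span {m : ℕ} (b : MvPolynomial (Fin (m + 1)) k) :
    ∃ f : k[X], b - aeval (MvPolynomial.X 0) f ∈
      Ideal.span (Set.range fun j : Fin m => (MvPolynomial.X j.succ :
        MvPolynomial (Fin (m + 1)) k)) := by
  set I := Ideal.span (Set.range fun j : Fin m => (MvPolynomial.X j.succ :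
        MvPolynomial (Fin (m + 1)) k)) with hI
  set π : MvPolynomial (Fin (m + 1)) k →ₐ[k] k[X] :=
    MvPolynomial.aeval (Fin.cases X (fun _ => 0)) with hπ
  refine ⟨π b, ?_⟩
  rw [← Ideal.Quotient.mk_eq_mk_iff_sub_mem]
  have : (Ideal.Quotient.mkₐ k I) = (Ideal.Quotient.mkₐ k I).comp
      ((Polynomial.aeval (MvPolynomial.X 0 : MvPolynomial (Fin (m + 1)) k)).comp π) := by
    apply MvPolynomial.algHom_ext
    intro i
    refine Fin.cases ?_ (fun j => ?_) i
    · rw [AlgHom.comp_apply, AlgHom.comp_apply, hπ, MvPolynomial.aeval_X]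
      show _ = Ideal.Quotient.mkₐ k I (aeval (MvPolynomial.X 0) X)
      rw [aeval_X]
    · rw [AlgHom.comp_apply, AlgHom.comp_apply, hπ, MvPolynomial.aeval_X]
      show _ = Ideal.Quotient.mkₐ k I (aeval (MvPolynomial.X 0) (0 : k[X]))
      rw [map_zero, map_zero, Ideal.Quotient.mkₐ_eq_mk, Ideal.Quotient.eq_zero_iff_mem]
      exact Ideal.subset_span ⟨j, rfl⟩
  exact congrArg (fun f => f b) this

end S3

/-- coordinates in which the conductor is `(P(X_0), X_1, ..., X_m)` -/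
theorem struct_cond {k : Type u} [Field k] {N m : ℕ}
    (φ : (MvPolynomial (Fin N) k)[X] →ₐ[k] MvPolynomial (Fin (m + 1)) k)
    (hφ : Function.Surjective φ)
    (hS : ∀ b, ∃ α β : MvPolynomial (Fin N) k, b = φ (C α) + φ (C β) * φ X)
    (s p : MvPolynomial (Fin N) k) (hg : φ X ^ 2 = φ (C s) * φ X - φ (C p))
    (hu : Ideal.span {φ (C s) - 2 * φ X} ⊔ cond φ = ⊤)
    (a : Fin (m + 1) → k) (ha : a 0 = 1) (Q : Fin (m + 1) → k[X]) (H : k[X]) (hH : H.Monic)
    (h3 : ∀ (T : Type u) [CommRing T] [Algebra k T] (p q : MvPolynomial (Fin (m + 1)) k →ₐ[k] T),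
      IsUnit (p (φ X) - q (φ X)) → (∀ ρ, p (φ (C ρ)) = q (φ (C ρ))) →
      (∀ j, p (MvPolynomial.X j) = aeval (p (lin a)) (Q j)) ∧ aeval (p (lin a)) H = 0) :
    (H = 1 → cond φ = ⊤) ∧
    ∃ α : MvPolynomial (Fin (m + 1)) k ≃ₐ[k] MvPolynomial (Fin (m + 1)) k, ∃ P : k[X], P ≠ 0 ∧
      cond ((α : _ →ₐ[k] MvPolynomial (Fin (m + 1)) k).comp φ) =
        Ideal.span (insert (aeval (MvPolynomial.X 0) P)
          (Set.range fun j : Fin m => MvPolynomial.X j.succ)) := by
  obtain ⟨q, hq1, hq2⟩ := S3.exists_iota φ hφ hS s p hg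
  have hunit : IsUnit (Ideal.Quotient.mkₐ k (cond φ) (φ X) - q (φ X)) := by
    have h1 : (1 : MvPolynomial (Fin (m + 1)) k) ∈ Ideal.span {φ (C s) - 2 * φ X} ⊔ cond φ := by
      rw [hu]
      trivial
    rw [Submodule.mem_sup] at h1
    obtain ⟨x, hx, y, hy, hxy⟩ := h1
    rw [Ideal.mem_span_singleton'] at hx
    obtain ⟨z, rfl⟩ := hx
    have h2 : Ideal.Quotient.mk (cond φ) z * Ideal.Quotient.mk (cond φ) (φ (C s) - 2 * φ X) = 1 := by
      rw [← map_mul, ← map_one (Ideal.Quotient.mk (cond φ)), Ideal.Quotient.mk_eq_mk_iff_sub_mem]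
      have : z * (φ (C s) - 2 * φ X) - 1 = -y := by linear_combination hxy
      rw [this]
      exact neg_mem hy
    refine IsUnit.of_mul_eq_one (-(Ideal.Quotient.mk (cond φ) z)) ?_
    rw [hq2, Ideal.Quotient.mkₐ_eq_mk, ← map_sub]
    rw [← h2, ← map_neg, ← map_mul, ← map_mul]
    congr 1
    ring
  obtain ⟨h4, h5⟩ := h3 _ (Ideal.Quotient.mkₐ k (cond φ)) q hunit (fun ρ => (hq1 ρ).symm)
  refine ⟨?_, S3.chg a ha Q, ?_⟩
  · intro hH1
    rw [hH1, map_one] at h5
    rw [Ideal.eq_top_iff_one]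
    have : Ideal.Quotient.mk (cond φ) 1 = 0 := by rw [map_one]; exact h5
    exact Ideal.Quotient.eq_zero_iff_mem.1 this
  · set c' := cond ((S3.chg a ha Q : MvPolynomial (Fin (m + 1)) k →ₐ[k]
        MvPolynomial (Fin (m + 1)) k).comp φ) with hc'
    have hmem : ∀ b, b ∈ c' ↔ S3.bwd a Q b ∈ cond φ := by
      intro b
      exact S3.mem_cond_comp φ (S3.chg a ha Q) b
    have hY : ∀ j : Fin m, (MvPolynomial.X j.succ : MvPolynomial (Fin (m + 1)) k) ∈ c' := by
      intro j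
      rw [hmem, S3.bwd_succ]
      have := h4 j.succ
      rw [Polynomial.aeval_algHom_apply, Ideal.Quotient.mkₐ_eq_mk,
        Ideal.Quotient.mk_eq_mk_iff_sub_mem] at this
      exact this
    set K : Ideal k[X] := Ideal.comap
      (aeval (MvPolynomial.X 0 : MvPolynomial (Fin (m + 1)) k) : k[X] →ₐ[k] _) c' with hK
    have hHK : H ∈ K := by
      rw [hK, Ideal.mem_comap, hmem, S3.aeval_hom, S3.bwd_zero]
      rw [Polynomial.aeval_algHom_apply, Ideal.Quotient.mkₐ_eq_mk,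
        Ideal.Quotient.eq_zero_iff_mem] at h5
      exact h5
    have hKp : K.IsPrincipal := IsPrincipalIdealRing.principal K
    refine ⟨hKp.generator, ?_, ?_⟩
    · intro h0
      have : K = ⊥ := (Submodule.IsPrincipal.eq_bot_iff_generator_eq_zero K).2 h0
      rw [this] at hHK
      exact hH.ne_zero (by simpa using hHK)
    · apply le_antisymm
      · intro b hb
        obtain ⟨f, hf⟩ := S3.sub_mem_span b
        have h6 : Ideal.span (Set.range fun j : Fin m => (MvPolynomial.X j.succ :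
            MvPolynomial (Fin (m + 1)) k)) ≤ c' := by
          rw [Ideal.span_le]
          rintro _ ⟨j, rfl⟩
          exact hY j
        have h7 : f ∈ K := by
          rw [hK, Ideal.mem_comap]
          have := sub_mem hb (h6 hf)
          simpa using this
        obtain ⟨w, hw⟩ := (Submodule.IsPrincipal.mem_iff_generator_dvd K).1 h7
        have h8 : b = (b - aeval (MvPolynomial.X 0) f) +
            aeval (MvPolynomial.X 0) w * aeval (MvPolynomial.X 0) hKp.generator := by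
          rw [← map_mul, mul_comm w, ← hw]
          ring
        rw [h8]
        refine add_mem (Ideal.span_mono (Set.subset_insert _ _) hf) ?_
        exact Ideal.mul_mem_left _ _ (Ideal.subset_span (Set.mem_insert _ _))
      · rw [Ideal.span_le, Set.insert_subset_iff]
        constructor
        · have : hKp.generator ∈ K := Submodule.IsPrincipal.generator_mem K
          exact this
        · rintro _ ⟨j, rfl⟩
          exact hY j

end Pool.Agent.H71.AAE
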